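import Pool.Agent.T6.H74.BD.BFin

/-!
# The broadcast dimension is NP-hard to compute, already for bipartite graphs
-/

namespace Pool.Agent.Results.MP_307b22_lc.BroadcastDimensionBipartite

open Pool.Agent.T6.H74.BD Pool.Agent.T6.H74.BD.Bip Pool.Agent.NPC Pool.Agent.H692R2

/-- Deciding `bdim G ≤ t` (for graphs given by their adjacency matrices) is NP-hard; it is already
NP-hard for connected bipartite graphs in which any two vertices have distance at most `3`; and a
polynomial-time algorithm that outputs `bdim G` for these graphs would give `P = NP`. -/
theorem result :
    NPHardP BroadcastDim ∧ NPHardP BipBroadcastDim ∧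
      ∀ V : List Bool → List Bool, PolyTime V →
        (∀ G : FinGraph, Good G → V (bits G) = bits (bdim G.graph)) →
        ∀ L : Set (List Bool), InNP L → InP L :=
  ⟨hard_all, hard_bip, compute⟩

end Pool.Agent.Results.MP_307b22_lc.BroadcastDimensionBipartite
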